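import Pool.Agent.K1H80.KA.StmC

/-!
Project KA (helper80), piece TRB: transcendence bases of `F(x)`.
-/

set_option autoImplicit false

namespace Pool.Agent.K1H11.KA

open MvPolynomial Pool.Agent.KA

lemma alg_all {F σ ι L : Type} [Field F] [Field L] [Algebra (MvPolynomial σ F) L]
    [IsFractionRing (MvPolynomial σ F) L] [Algebra F L] [IsScalarTower F (MvPolynomial σ F) L]
    (g : ι → L) (A1 : Subalgebra F L)
    (halg : ∀ i, IsAlgebraic A1 (g i))
    (hX : ∀ v : σ, IsAlgebraic (IntermediateField.adjoin F (Set.range g))
      (algebraMap (MvPolynomial σ F) L (X v))) :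
    ∀ y : L, IsAlgebraic A1 y := by
  let C : IntermediateField F L :=
    { carrier := {y | IsAlgebraic A1 y}
      add_mem' := fun h1 h2 => IsAlgebraic.add h1 h2
      mul_mem' := fun h1 h2 => IsAlgebraic.mul h1 h2
      algebraMap_mem' := fun r => by
        have := isAlgebraic_algebraMap (A := L) (algebraMap F A1 r)
        exact this
      inv_mem' := fun y h => IsAlgebraic.inv h }
  have hC : ∀ y, y ∈ C ↔ IsAlgebraic A1 y := fun y => Iff.rfl
  have hE2 : IntermediateField.adjoin F (Set.range g) ≤ C := by
    rw [IntermediateField.adjoin_le_iff]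
    rintro _ ⟨i, rfl⟩
    exact halg i
  have hA1C : A1 ≤ C.toSubalgebra := fun y hy =>
    (hC _).2 (isAlgebraic_algebraMap (⟨y, hy⟩ : A1))
  let _ : Algebra A1 C := (Subalgebra.inclusion hA1C).toRingHom.toAlgebra
  have _ : IsScalarTower A1 C L := IsScalarTower.of_algebraMap_eq fun _ => rfl
  have _ : Algebra.IsAlgebraic A1 C := ⟨fun y => by
    have := (hC y).1 y.2
    exact (isAlgebraic_algebraMap_iff (algebraMap C L).injective).1 this⟩
  have hXC : ∀ v : σ, algebraMap (MvPolynomial σ F) L (X v) ∈ C := by
    intro v
    rw [hC]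
    let _ : Algebra (IntermediateField.adjoin F (Set.range g)) C :=
      (IntermediateField.inclusion hE2).toRingHom.toAlgebra
    have _ : IsScalarTower (IntermediateField.adjoin F (Set.range g)) C L :=
      IsScalarTower.of_algebraMap_eq fun _ => rfl
    have h2 : IsAlgebraic C (algebraMap (MvPolynomial σ F) L (X v)) := (hX v).tower_top C
    exact h2.restrictScalars A1
  have hpol : ∀ p : MvPolynomial σ F, algebraMap (MvPolynomial σ F) L p ∈ C := by
    intro p
    induction p using MvPolynomial.induction_on with
    | C a =>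
      have := C.algebraMap_mem a
      rw [IsScalarTower.algebraMap_apply F (MvPolynomial σ F) L] at this
      exact this
    | add p q hp hq => rw [map_add]; exact C.add_mem hp hq
    | mul_X p v hp => rw [map_mul]; exact C.mul_mem hp (hXC v)
  intro y
  obtain ⟨p, q, hq, rfl⟩ := IsFractionRing.div_surjective (A := MvPolynomial σ F) y
  exact (hC _).1 (C.div_mem (hpol p) (hpol q))

lemma trb_gen {F σ ι L : Type} [Field F] [Field L] [Algebra (MvPolynomial σ F) L]
    [IsFractionRing (MvPolynomial σ F) L] [Algebra F L] [IsScalarTower F (MvPolynomial σ F) L]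
    (f : ι → MvPolynomial σ F) (S : Set ι)
    (hS : AlgebraicIndependent F (fun i : S => f i))
    (hmax : ∀ i, i ∉ S → ¬ AlgebraicIndependent F (fun j : (insert i S : Set ι) => f j))
    (hX : ∀ v : σ, IsAlgebraic (IntermediateField.adjoin F
      (Set.range fun i => algebraMap (MvPolynomial σ F) L (f i)))
      (algebraMap (MvPolynomial σ F) L (X v))) :
    Nat.card S = Nat.card σ := by
  obtain ⟨g, hg⟩ : ∃ g : ι → L, g = fun i => algebraMap (MvPolynomial σ F) L (f i) := ⟨_, rfl⟩
  rw [← hg] at hX
  have hinj : Function.Injective (IsScalarTower.toAlgHom F (MvPolynomial σ F) L) :=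
    IsFractionRing.injective (MvPolynomial σ F) L
  have hgv : ∀ i, g i = IsScalarTower.toAlgHom F (MvPolynomial σ F) L (f i) := by
    intro i
    rw [hg]
    rfl
  clear hg
  have hgS : AlgebraicIndependent F (fun i : S => g i) := by
    have e : (fun i : S => g i) =
        (IsScalarTower.toAlgHom F (MvPolynomial σ F) L) ∘ (fun i : S => f i) := by
      funext i
      exact hgv i
    rw [e]
    exact AlgebraicIndependent.map' hS hinj
  have halg : ∀ i, IsAlgebraic (Algebra.adjoin F (g '' S)) (g i) := by
    intro i
    by_cases hi : i ∈ S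
    · exact isAlgebraic_algebraMap
        (⟨g i, Algebra.subset_adjoin (Set.mem_image_of_mem g hi)⟩ :
          Algebra.adjoin F (g '' S))
    · by_contra hcon
      apply hmax i hi
      have h0 : AlgebraicIndepOn F g S := hgS
      have h1 : AlgebraicIndepOn F g (insert i S) := h0.insert hcon
      refine AlgebraicIndependent.of_comp (IsScalarTower.toAlgHom F (MvPolynomial σ F) L) ?_
      have e : (IsScalarTower.toAlgHom F (MvPolynomial σ F) L) ∘
          (fun j : (insert i S : Set ι) => f j) = fun j : (insert i S : Set ι) => g j := by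
        funext j
        exact (hgv j).symm
      rw [e]
      exact h1
  have hall := alg_all g (Algebra.adjoin F (g '' S)) halg hX
  have hb1 : IsTranscendenceBasis F (fun i : S => g i) := by
    rw [hgS.isTranscendenceBasis_iff_isAlgebraic]
    have e : Set.range (fun i : S => g i) = g '' S := by
      ext y
      simp
    rw [e]
    exact ⟨hall⟩
  have _ : Algebra.IsAlgebraic (MvPolynomial σ F) L :=
    (IsFractionRing.comap_isAlgebraic_iff (A := MvPolynomial σ F) (K := L) (C := L)).2 inferInstance
  have hb2 : IsTranscendenceBasis F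
      (algebraMap (MvPolynomial σ F) L ∘ (X : σ → MvPolynomial σ F)) :=
    (IsTranscendenceBasis.mvPolynomial σ F).algebraMap_comp
  have := hb1.cardinalMk_eq hb2
  exact congrArg Cardinal.toNat this

theorem trb : TRBStm := by
  intro F σ ι _ _ _ f S hS hmax hX
  exact trb_gen f S hS hmax hX

end Pool.Agent.K1H11.KA
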